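import Pool.Agent.H5.BHG.Stmts

/-! # Row FNG of the board `bhg` -/

set_option autoImplicit false

namespace Pool.BHG

open Filter TMLib Pool.PG Pool.DPG

lemma fng_win (hTPG : TPGStmt) (t : ℕ) (g : Game) (hg : Valid g) (hne : sol t (cmp g) ≠ []) :
    (sol t (cmp g)).length = g.length ∧
      ∀ v < g.length, Win g ((sol t (cmp g)).getD v false) v := by
  obtain ⟨hv, hw⟩ := cmw g hg
  have hlen : (Pool.PG.cmp g).length = g.length := by simp [Pool.PG.cmp]
  obtain ⟨h1, h2⟩ := hTPG t (cmp g) hv hne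
  refine ⟨h1.trans hlen, fun v hvl => ?_⟩
  exact (hw v hvl _).1 (h2 v (by rw [hlen]; exact hvl))

/-- Row FNG. -/
theorem fng_thm (hSTC : STCStmt) (hTPG : TPGStmt) (hMXC : MXCStmt) (hPSO : PSOStmt) :
    FNGStmt := by
  intro t
  refine ⟨fun g => sol t (cmp g), bot_all.1 (List Bool) (sol t) (hPSO t), ?_, ?_⟩
  · intro g hg hne
    exact fng_win hTPG t g hg hne
  · intro g hg hM
    by_cases h0 : sol t (cmp g) = []
    · have hlen : (Pool.PG.cmp g).length = g.length := by simp [Pool.PG.cmp]
      have hg0 : g.length = 0 := by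
        by_contra hne
        exact hSTC t (cmp g) (by rw [hlen]; omega) (cmw g hg).1 (hMXC t g hg hM) h0
      refine ⟨?_, fun v hvl => by omega⟩
      show (sol t (cmp g)).length = g.length
      rw [h0, hg0]
      rfl
    · exact fng_win hTPG t g hg h0

end Pool.BHG
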