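import Pool.Agent.H5.BHG.Stmts2

/-! # Row GVM of the board `bhg` -/

set_option autoImplicit false

namespace Pool.BHG

open Filter TMLib Pool.PG Pool.DPG

private theorem gvm_len {n : ℕ} (o : Fin n → Bool) (p : Fin n → ℕ) (E : Fin n → Fin n → Bool) :
    (dgame o p E).length = n := by
  unfold dgame; simp

private theorem gvm_msuc {n : ℕ} (o : Fin n → Bool) (p : Fin n → ℕ) (E : Fin n → Fin n → Bool)
    (v : Fin n) (w : ℕ) : w ∈ suc (dgame o p E) v ↔ ∃ u : Fin n, E v u = true ∧ (u : ℕ) = w := by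
  have h3 : (v : ℕ) < (dgame o p E).length := by rw [gvm_len]; exact v.2
  unfold suc vx
  rw [List.getD_eq_getElem _ _ h3]
  simp only [dgame, List.getElem_ofFn, List.map_id', List.bind_eq_flatMap, List.pure_def,
    List.mem_flatMap, List.mem_filter, List.mem_finRange, true_and, List.mem_singleton, Fin.eta]
  constructor
  · rintro ⟨u, hu, rfl⟩
    exact ⟨u, hu, rfl⟩
  · rintro ⟨u, hu, rfl⟩
    exact ⟨u, hu, rfl⟩

/-- Row GVM. -/
theorem gvm_thm : GVMStmt := by
  intro n o q E hn hE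
  refine ⟨gvm_len o q E, ?_, ?_⟩
  · intro v hv
    rw [gvm_len] at hv
    refine ⟨?_, ?_⟩
    · obtain ⟨v', hv'⟩ : ∃ v' : Fin n, (⟨v, hv⟩ : Fin n) ≠ v' := by
        by_cases h0 : v = 0
        · exact ⟨⟨1, by omega⟩, fun h => by
            have := congrArg Fin.val h
            simp only at this
            omega⟩
        · exact ⟨⟨0, by omega⟩, fun h => by
            have := congrArg Fin.val h
            simp only at this
            omega⟩
      obtain ⟨u, hu, -⟩ := hE _ _ hv'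
      have h2 : (u : ℕ) ∈ suc (dgame o q E) ((⟨v, hv⟩ : Fin n) : ℕ) :=
        (gvm_msuc o q E ⟨v, hv⟩ u).2 ⟨u, hu, rfl⟩
      exact List.ne_nil_of_mem h2
    · intro w hw
      have h2 : w ∈ suc (dgame o q E) ((⟨v, hv⟩ : Fin n) : ℕ) := hw
      obtain ⟨u, _, rfl⟩ := (gvm_msuc o q E ⟨v, hv⟩ w).1 h2
      rw [gvm_len]
      exact u.2
  · intro t ht D B hD hB hDt hBt
    obtain ⟨v, hv⟩ : D.Nonempty := Finset.card_pos.1 (by omega)
    obtain ⟨w, hw⟩ : B.Nonempty := Finset.card_pos.1 (by omega)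
    have h1 := hD v hv
    have h2 := hB w hw
    have h1l := h1.1
    have h2l := h2.1
    rw [gvm_len] at h1l h2l
    have hne : (⟨v, h1l⟩ : Fin n) ≠ ⟨w, h2l⟩ := by
      intro h
      have hvw : v = w := congrArg Fin.val h
      subst hvw
      have := h1.2.symm.trans h2.2
      exact absurd this (by decide)
    obtain ⟨u, hu1, hu2⟩ := hE _ _ hne
    refine ⟨v, hv, w, hw, Or.inr (Or.inr ⟨(u : ℕ), ?_, ?_⟩)⟩
    · exact (gvm_msuc o q E ⟨v, h1l⟩ u).2 ⟨u, hu1, rfl⟩
    · exact (gvm_msuc o q E ⟨w, h2l⟩ u).2 ⟨u, hu2, rfl⟩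

end Pool.BHG
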