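import Pool.Agent.H5.BHG.Stmts4

/-!
Row PS2: the algorithm `so2 t` runs in polynomial time.
-/

set_option autoImplicit false

namespace Pool.BHG

open Filter TMLib Pool.PG Pool.DPG

lemma ps2_sl (t : ℕ) : PTime (fun p : Game × List Bool => sl t p.1 p.2) :=
  plg_all (lvs t) (ct t) (lvs t) (pso_lvs plg_all pon_thm pct_thm t) (pct_thm.2 t)
    (pso_lvs plg_all pon_thm pct_thm t)

theorem ps2_thm (hPC2 : PC2Stmt) : PS2Stmt := by
  intro t
  have h1 : PTime (fun p : Game × List Bool => lvs t p.1 p.2) := pso_lvs plg_all pon_thm pct_thm t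
  have h2 : PTime (fun p : Game × List Bool => lvg (sl t) c2 (lvs t) p.1 p.2) :=
    plg_all (sl t) c2 (lvs t) (ps2_sl t) hPC2 h1
  have h3 : PTime (fun g : Game =>
      lvg (sl t) c2 (lvs t) g (msk g.length fun _ => true)) :=
    PTime.comp (g := fun p : Game × List Bool => lvg (sl t) c2 (lvs t) p.1 p.2)
      (f := fun g : Game => (g, msk g.length fun _ => true)) h2
      (PTime.pair (f := fun g : Game => g) (g := fun g : Game => msk g.length fun _ => true)
        PTime.id pso_msk)
  have e : so2 t = fun g : Game =>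
      lvg (sl t) c2 (lvs t) g (msk g.length fun _ => true) := by
    funext g
    unfold so2
    rfl
  rw [e]
  exact h3

end Pool.BHG
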